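import Pool.Agent.Helper75.PX.Stmts3

set_option autoImplicit false

universe u

namespace Pool.Agent.Helper75.PX

theorem st_SC3c : ST_SC3c.{u} := by
  intro K A _ _ _ y u t c g hg h
  refine ⟨h.hy, ?_, ?_, mul_ne_zero h.c0 (pow_ne_zero _ hg)⟩
  · rw [smul_mul_assoc, h.huy, mul_smul_comm]
  · rw [smul_mul_smul_comm, smul_mul_smul_comm, h.hu, Algebra.smul_def, ← map_mul]
    congr 1
    ring

end Pool.Agent.Helper75.PX
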